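import Mathlib
import Pool.Agent.H.MP_09f213_an.h81.Local

set_option autoImplicit false

open MeasureTheory

namespace Pool.Agent.Results.MP_09f213_an.ContinuousGradient

/-- Smooth complex functions with compact support in `Ω`. -/
def IsTest (Ω : Set ℂ) (η : ℂ → ℂ) : Prop :=
  ContDiff ℝ ((⊤ : ℕ∞) : WithTop ℕ∞) η ∧ HasCompactSupport η ∧ tsupport η ⊆ Ω

/-- `f` is in the local Sobolev space `W^{1,2}` of `Ω`, with weak partial derivatives `fx` and `fy`. -/
structure IsSobolevLoc (Ω : Set ℂ) (f fx fy : ℂ → ℂ) : Prop where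
  sq : ∀ K : Set ℂ, IsCompact K → K ⊆ Ω →
    MemLp f 2 (volume.restrict K) ∧ MemLp fx 2 (volume.restrict K) ∧ MemLp fy 2 (volume.restrict K)
  weak : ∀ η : ℂ → ℂ, IsTest Ω η →
    (∫ z in Ω, f z * fderiv ℝ η z 1) = - ∫ z in Ω, fx z * η z ∧
    (∫ z in Ω, f z * fderiv ℝ η z Complex.I) = - ∫ z in Ω, fy z * η z

/-- The derivative `f_z`. -/
noncomputable def fz (fx fy : ℂ → ℂ) (z : ℂ) : ℂ := (fx z - Complex.I * fy z) / 2

/-- The derivative with respect to the conjugate of `z`. -/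
noncomputable def fzbar (fx fy : ℂ → ℂ) (z : ℂ) : ℂ := (fx z + Complex.I * fy z) / 2

/-- The inner variational equation in the sense of distributions. -/
def SolvesInnerVariational (Ω : Set ℂ) (fx fy : ℂ → ℂ) : Prop :=
  ∀ η : ℂ → ℂ, IsTest Ω η →
    ∫ z in Ω, fz fx fy z * (starRingEnd ℂ) (fzbar fx fy z) *
      ((fderiv ℝ η z 1 + Complex.I * fderiv ℝ η z Complex.I) / 2) = 0

/-- The Jacobian. -/
noncomputable def jac (fx fy : ℂ → ℂ) (z : ℂ) : ℝ := ‖fz fx fy z‖ ^ 2 - ‖fzbar fx fy z‖ ^ 2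

/-- The Hilbert-Schmidt norm of the differential. -/
noncomputable def hsNorm (fx fy : ℂ → ℂ) (z : ℂ) : ℝ :=
  Real.sqrt (2 * (‖fz fx fy z‖ ^ 2 + ‖fzbar fx fy z‖ ^ 2))

/-- `D` coincides almost everywhere in `Ω` with a function which is continuous on `Ω`. -/
def HasContinuousRep (Ω : Set ℂ) (D : ℂ → ℝ) : Prop :=
  ∃ g : ℂ → ℝ, ContinuousOn g Ω ∧ ∀ᵐ z ∂(volume.restrict Ω), g z = D z

/-- For a local `W^{1,2}` solution of the inner variational equation with nonnegative Jacobian the functions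
`|Df|`, `|f_z|` and `|f_zbar|` have continuous representatives. -/
theorem result (Ω : Set ℂ) (f fx fy : ℂ → ℂ) (hΩ : IsOpen Ω) (hf : IsSobolevLoc Ω f fx fy)
    (hiv : SolvesInnerVariational Ω fx fy) (hj : ∀ᵐ z ∂(volume.restrict Ω), 0 ≤ jac fx fy z) :
    HasContinuousRep Ω (hsNorm fx fy) ∧ HasContinuousRep Ω (fun z => ‖fz fx fy z‖) ∧
      HasContinuousRep Ω (fun z => ‖fzbar fx fy z‖) := by
  have hint : ∀ (F : ℂ → ℂ), (∀ z, z ∉ Ω → F z = 0) → ∫ z in Ω, F z = ∫ z, F z := by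
    intro F hF
    exact setIntegral_eq_integral_of_forall_compl_eq_zero hF
  have hη0 : ∀ η : ℂ → ℂ, IsTest Ω η → ∀ z, z ∉ Ω → η z = 0 ∧ fderiv ℝ η z = 0 := by
    intro η hη z hz
    have h1 : z ∉ tsupport η := fun h => hz (hη.2.2 h)
    refine ⟨image_eq_zero_of_notMem_tsupport h1, ?_⟩
    by_contra h2
    exact h1 (support_fderiv_subset ℝ h2)
  have hL : H.MP_09f213_an.h81.LHyp Ω f fx fy := by
    refine ⟨hΩ, ?_, fun K hK hKΩ => (hf.sq K hK hKΩ).2.1, fun K hK hKΩ => (hf.sq K hK hKΩ).2.2, ?_, ?_, ?_⟩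
    · rw [locallyIntegrableOn_iff hΩ.isLocallyClosed]
      intro K hKΩ hK
      have h1 := (hf.sq K hK hKΩ).1
      have : IsFiniteMeasure (volume.restrict K) := ⟨by
        rw [Measure.restrict_apply_univ]; exact hK.measure_lt_top⟩
      exact h1.integrable (by norm_num)
    · intro φ h1 h2 h3
      have hw := hf.weak φ ⟨h1, h2, h3⟩
      have hz := hη0 φ ⟨h1, h2, h3⟩
      rw [hint _ (fun z hz' => by rw [(hz z hz').2]; simp),
        hint _ (fun z hz' => by rw [(hz z hz').1]; simp),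
        hint _ (fun z hz' => by rw [(hz z hz').2]; simp),
        hint _ (fun z hz' => by rw [(hz z hz').1]; simp)] at hw
      exact hw
    · intro φ h1 h2 h3
      have hw := hiv φ ⟨h1, h2, h3⟩
      have hz := hη0 φ ⟨h1, h2, h3⟩
      rw [hint _ (fun z hz' => by rw [(hz z hz').2]; simp)] at hw
      exact hw
    · filter_upwards [hj] with z hz
      have h1 : ‖fzbar fx fy z‖ ^ 2 ≤ ‖fz fx fy z‖ ^ 2 := by
        unfold jac at hz; linarith
      exact (sq_le_sq₀ (norm_nonneg _) (norm_nonneg _)).1 h1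
  obtain ⟨g, p, q, hg, hp, hq, h⟩ := H.MP_09f213_an.h81.rep_all hL
  exact ⟨⟨g, hg, h.mono fun z hz => hz.1⟩, ⟨p, hp, h.mono fun z hz => hz.2.1⟩,
    ⟨q, hq, h.mono fun z hz => hz.2.2⟩⟩

end Pool.Agent.Results.MP_09f213_an.ContinuousGradient
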